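import Pool.Agent.P8H12.SO.Stm

/-!
# Project ST, part FIN (helper44): the exponent of integral matrices of finite order
-/

set_option autoImplicit false

open Polynomial

namespace Pool.Agent.P8H44.ST

open Pool.Agent.P8H12.ST

theorem totient_le {n : ℕ} (N : Matrix (Fin n) (Fin n) ℚ) {p k : ℕ} (hp : p.Prime)
    (h1 : N ^ p ^ (k + 1) = 1) (h2 : N ^ p ^ k ≠ 1) : p ^ k * (p - 1) ≤ n := by
  haveI : Fact p.Prime := ⟨hp⟩
  have hint : IsIntegral ℚ N := Matrix.isIntegral N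
  have hdeg : (minpoly ℚ N).natDegree ≤ n := by
    have h := Polynomial.natDegree_le_of_dvd (Matrix.minpoly_dvd_charpoly N)
      (Matrix.charpoly_monic N).ne_zero
    rw [Matrix.charpoly_natDegree_eq_dim, Fintype.card_fin] at h
    exact h
  have hdvd : minpoly ℚ N ∣ cyclotomic (p ^ (k + 1)) ℚ * (X ^ p ^ k - 1) := by
    rw [Polynomial.cyclotomic_prime_pow_mul_X_pow_sub_one]
    apply minpoly.dvd
    simp [h1]
  have hirr : Irreducible (cyclotomic (p ^ (k + 1)) ℚ) :=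
    Polynomial.cyclotomic.irreducible_rat (pow_pos hp.pos _)
  by_cases hc : cyclotomic (p ^ (k + 1)) ℚ ∣ minpoly ℚ N
  · have h := Polynomial.natDegree_le_of_dvd hc (minpoly.ne_zero hint)
    rw [Polynomial.natDegree_cyclotomic, Nat.totient_prime_pow_succ hp] at h
    exact h.trans hdeg
  · exfalso
    have hcop : IsCoprime (cyclotomic (p ^ (k + 1)) ℚ) (minpoly ℚ N) :=
      (hirr.coprime_iff_not_dvd).2 hc
    have h := hcop.symm.dvd_of_dvd_mul_left hdvd
    apply h2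
    obtain ⟨q, hq⟩ := h
    have h3 := congrArg (Polynomial.aeval N) hq
    rw [map_mul, minpoly.aeval, zero_mul] at h3
    simpa [sub_eq_zero] using h3

theorem fin : S_FIN := by
  intro g n hn M t ht hM
  have hfin : IsOfFinOrder M := isOfFinOrder_iff_pow_eq_one.2 ⟨t, ht, hM⟩
  have ho : 0 < orderOf M := hfin.orderOf_pos
  rw [← orderOf_dvd_iff_pow_eq_one, Nat.dvd_iff_prime_pow_dvd_dvd]
  intro p k hp hk
  rcases k with _ | k
  · rw [pow_zero]; exact one_dvd _
  obtain ⟨c, hc⟩ := hk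
  have hc0 : c ≠ 0 := by
    rintro rfl
    rw [mul_zero] at hc
    omega
  have hN : orderOf (M ^ c) = p ^ (k + 1) := by
    rw [orderOf_pow_of_dvd hc0 ⟨p ^ (k + 1), by rw [hc, mul_comm]⟩, hc]
    exact Nat.mul_div_cancel _ (Nat.pos_of_ne_zero hc0)
  have hinj : Function.Injective ((Int.castRingHom ℚ).mapMatrix : Matrix (Fin n) (Fin n) ℤ →+* _) :=
    Matrix.map_injective Int.cast_injective
  have h1 : ((Int.castRingHom ℚ).mapMatrix (M ^ c)) ^ p ^ (k + 1) = 1 := by
    rw [← map_pow, ← hN, pow_orderOf_eq_one, map_one]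
  have h2 : ((Int.castRingHom ℚ).mapMatrix (M ^ c)) ^ p ^ k ≠ 1 := by
    intro h
    rw [← map_pow, ← map_one ((Int.castRingHom ℚ).mapMatrix : Matrix (Fin n) (Fin n) ℤ →+* _)] at h
    have h3 := orderOf_dvd_of_pow_eq_one (hinj h)
    rw [hN] at h3
    have h4 := (Nat.pow_dvd_pow_iff_le_right hp.one_lt).1 h3
    omega
  have h3 := totient_le _ hp h1 h2
  have h4 : p ^ k * (p - 1) ≤ g := h3.trans hn
  have hp2 := hp.two_le
  have hpk : 1 ≤ p ^ k := Nat.one_le_pow _ _ hp.pos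
  have h5 : p - 1 ≤ g := le_trans (Nat.le_mul_of_pos_left _ (by omega)) h4
  have h6 : p ^ (k + 1) ≤ 2 * g := by
    calc p ^ (k + 1) = p ^ k * p := pow_succ _ _
      _ ≤ p ^ k * (2 * (p - 1)) := Nat.mul_le_mul_left _ (by omega)
      _ = 2 * (p ^ k * (p - 1)) := by ring
      _ ≤ 2 * g := Nat.mul_le_mul_left _ h4
  have h7 : k + 1 ≤ Nat.log p (2 * g) := by
    apply Nat.le_log_of_pow_le hp.one_lt h6
  exact (pow_dvd_pow p h7).trans (Finset.dvd_prod_of_mem (fun p => p ^ Nat.log p (2 * g))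
    (Finset.mem_filter.2 ⟨Finset.mem_range.2 (by omega), hp⟩))

end Pool.Agent.P8H44.ST
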