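import Pool.Agent.P8H12.SO.Stm

/-!
# Project ST, part RED (helper44): the derived series of the absolute Galois group and towers
-/

set_option autoImplicit false

namespace Pool.Agent.P8H44.ST

open Pool.Agent.P8H12.ST

theorem der_eq {G : Type*} [Group G] (H : Subgroup G) (s : ℕ) :
    der H s = (derivedSeries H s).map H.subtype := by
  induction s with
  | zero =>
    show H = (⊤ : Subgroup H).map H.subtype
    rw [← MonoidHom.range_eq_map, Subgroup.range_subtype]
  | succ s ih =>
    rw [derivedSeries_succ, Subgroup.map_commutator, ← ih]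
    rfl

theorem red : S_RED := by
  rintro k K _ _ _ _ d s ⟨F, L, _, _, _, _, _, _, _, _, hfd, hd, hgal, hder⟩ j
  haveI := hfd
  haveI := hgal
  haveI : Algebra.IsAlgebraic k F := Algebra.IsAlgebraic.of_finite k F
  haveI : Algebra.IsAlgebraic F L := Algebra.IsIntegral.isAlgebraic
  haveI : Algebra.IsAlgebraic k L := Algebra.IsAlgebraic.trans k F L
  haveI : Algebra.IsAlgebraic K L := Algebra.IsAlgebraic.tower_top (K := k) K
  obtain ⟨l, hl⟩ : ∃ l : L →ₐ[k] AlgebraicClosure k, ∀ x : K, l (algebraMap K L x) = j x := by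
    letI : Algebra K (AlgebraicClosure k) := j.toRingHom.toAlgebra
    haveI : IsScalarTower k K (AlgebraicClosure k) := IsScalarTower.of_algebraMap_eq fun x => by
      exact (j.commutes x).symm
    let l : L →ₐ[K] AlgebraicClosure k := IsAlgClosed.lift
    refine ⟨l.restrictScalars k, fun x => ?_⟩
    have h := l.commutes x
    exact h
  obtain ⟨u, hu⟩ : ∃ u : F →ₐ[k] L, ∀ x : F, u x = algebraMap F L x :=
    ⟨IsScalarTower.toAlgHom k F L, fun x => rfl⟩
  let H : Subgroup (AlgebraicClosure k ≃ₐ[k] AlgebraicClosure k) :=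
    { carrier := {σ | ∀ x : F, σ (l (u x)) = l (u x)}
      mul_mem' := by
        intro a b ha hb x
        have h1 := hb x
        have h2 := ha x
        rw [AlgEquiv.mul_apply, h1, h2]
      one_mem' := fun x => rfl
      inv_mem' := by
        intro a ha x
        have h1 := ha x
        have h2 : a⁻¹ (a (l (u x))) = l (u x) := by
          rw [← AlgEquiv.mul_apply, inv_mul_cancel]
          rfl
        rw [h1] at h2
        exact h2 }
  have hH : ∀ σ, σ ∈ H ↔ ∀ x : F, σ (l (u x)) = l (u x) := fun σ => Iff.rfl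
  refine ⟨H, ?_, ?_⟩
  · intro σ
    have hcard : Fintype.card (F →ₐ[k] AlgebraicClosure k) < Fintype.card (Fin (d + 1)) := by
      rw [AlgHom.card, Fintype.card_fin]
      omega
    obtain ⟨a, b, hab, he⟩ := Fintype.exists_ne_map_eq_of_card_lt
      (fun i : Fin (d + 1) => ((σ ^ (i : ℕ) : AlgebraicClosure k ≃ₐ[k] AlgebraicClosure k) :
        AlgebraicClosure k →ₐ[k] AlgebraicClosure k).comp (l.comp u)) hcard
    wlog hlt : (a : ℕ) < b generalizing a b
    · exact this b a hab.symm he.symm (by
        have := fun h => hab (Fin.ext h)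
        omega)
    refine ⟨b - a, by omega, by omega, ?_⟩
    rw [hH]
    intro x
    have h1 : (σ ^ (a : ℕ)) (l (u x)) = (σ ^ (b : ℕ)) (l (u x)) := DFunLike.congr_fun he x
    have h2 : σ ^ (b : ℕ) = σ ^ (a : ℕ) * σ ^ ((b : ℕ) - a) := by
      rw [← pow_add]
      congr 1
      omega
    rw [h2, AlgEquiv.mul_apply] at h1
    exact ((σ ^ (a : ℕ)).injective h1).symm
  · intro τ hτ x
    letI : Algebra F (AlgebraicClosure k) := (l.comp u).toRingHom.toAlgebra
    letI : Algebra L (AlgebraicClosure k) := l.toRingHom.toAlgebra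
    haveI : IsScalarTower F L (AlgebraicClosure k) := IsScalarTower.of_algebraMap_eq fun x => by
      show l (u x) = l (algebraMap F L x)
      rw [hu]
    haveI : Normal F L := inferInstance
    let ψ : H →* (AlgebraicClosure k ≃ₐ[F] AlgebraicClosure k) :=
      { toFun := fun h => AlgEquiv.ofRingEquiv (f := (h : AlgebraicClosure k ≃ₐ[k] AlgebraicClosure k).toRingEquiv)
          (fun y => h.2 y)
        map_one' := by
          ext y
          rfl
        map_mul' := by
          intro a b
          ext y
          rfl }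
    have hψ : ∀ (h : H) (y : AlgebraicClosure k), ψ h y =
      (h : AlgebraicClosure k ≃ₐ[k] AlgebraicClosure k) y := fun h y => rfl
    rw [der_eq] at hτ
    obtain ⟨h, hh, rfl⟩ := hτ
    have h1 : ((AlgEquiv.restrictNormalHom L).comp ψ) h ∈ derivedSeries (L ≃ₐ[F] L) s :=
      map_derivedSeries_le_derivedSeries ((AlgEquiv.restrictNormalHom L).comp ψ) s
        (Subgroup.mem_map_of_mem _ hh)
    rw [hder, Subgroup.mem_bot] at h1
    have h2 : algebraMap L (AlgebraicClosure k) ((ψ h).restrictNormal L (algebraMap K L x)) =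
      ψ h (algebraMap L (AlgebraicClosure k) (algebraMap K L x)) :=
      AlgEquiv.restrictNormal_commutes _ _ _
    have h3 : (ψ h).restrictNormal L = 1 := h1
    rw [h3, hψ] at h2
    have h4 : algebraMap L (AlgebraicClosure k) (algebraMap K L x) = j x := hl x
    rw [AlgEquiv.one_apply, h4] at h2
    exact h2.symm

end Pool.Agent.P8H44.ST
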